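import Pool.Agent.MP_5c28a4_al.H89S.Spec

/-!
The trick of Dedekind for commuting characters, and the evaluation of words at the conjugates of
one element.
-/

set_option autoImplicit false

namespace Pool.Agent.MP_5c28a4_al.H89S

open scoped commutatorElement

namespace Ut3A

section ded

variable {N E ι : Type} [Group N] [Ring E]

theorem ded_aux (P : Subgroup N) (S : Finset ι) (χ : ι → N → E) (x : ι → E)
    (hmul : ∀ i ∈ S, ∀ a ∈ P, ∀ b ∈ P, χ i (a * b) = χ i a * χ i b)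
    (hcomm : ∀ i ∈ S, ∀ j ∈ S, ∀ a ∈ P, ∀ b ∈ P, χ i a * χ j b = χ j b * χ i a)
    (h : ∀ c ∈ P, ∑ i ∈ S, χ i c * x i = 0) (l : List (ι × N))
    (hl : ∀ t ∈ l, t.1 ∈ S ∧ t.2 ∈ P) :
    ∀ c ∈ P, ∑ i ∈ S, χ i c * ((l.map fun t => χ t.1 t.2 - χ i t.2).prod * x i) = 0 := by
  induction l with
  | nil => simpa using h
  | cons t l ih =>
    intro c hc
    obtain ⟨h1, h2⟩ := hl t (by simp)
    have ih' := ih fun t' ht' => hl t' (by simp [ht'])
    have e1 := ih' c hc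
    have e2 := ih' (c * t.2) (P.mul_mem hc h2)
    have : ∑ i ∈ S, χ i c * (((t :: l).map fun t => χ t.1 t.2 - χ i t.2).prod * x i) =
        χ t.1 t.2 * ∑ i ∈ S, χ i c * ((l.map fun t => χ t.1 t.2 - χ i t.2).prod * x i) -
        ∑ i ∈ S, χ i (c * t.2) * ((l.map fun t => χ t.1 t.2 - χ i t.2).prod * x i) := by
      rw [Finset.mul_sum, ← Finset.sum_sub_distrib]
      refine Finset.sum_congr rfl fun i hi => ?_
      rw [List.map_cons, List.prod_cons, hmul i hi c hc _ h2, ← mul_assoc (χ t.1 t.2),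
        hcomm _ h1 i hi _ h2 c hc]
      simp only [mul_assoc, sub_mul, mul_sub]
    rw [this, e1, e2, mul_zero, sub_zero]

/-- the trick of Dedekind: the characters of the class `Q` are trivial, and the list `l` contains
every index outside the class -/
theorem ded (P : Subgroup N) (S : Finset ι) (Q : ι → Prop) [DecidablePred Q] (χ : ι → N → E)
    (x : ι → E) (hone : ∀ i ∈ S, χ i 1 = 1)
    (hmul : ∀ i ∈ S, ∀ a ∈ P, ∀ b ∈ P, χ i (a * b) = χ i a * χ i b)
    (hcomm : ∀ i ∈ S, ∀ j ∈ S, ∀ a ∈ P, ∀ b ∈ P, χ i a * χ j b = χ j b * χ i a)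
    (h0 : ∀ i ∈ S, Q i → ∀ c ∈ P, χ i c = 1)
    (h : ∀ c ∈ P, ∑ i ∈ S, χ i c * x i = 0) (l : List (ι × N))
    (hl : ∀ t ∈ l, t.1 ∈ S ∧ t.2 ∈ P) (hcov : ∀ i ∈ S, ¬ Q i → ∃ t ∈ l, t.1 = i) :
    (l.map fun t => χ t.1 t.2 - 1).prod * ∑ i ∈ S.filter Q, x i = 0 := by
  have e := ded_aux P S χ x hmul hcomm h l hl 1 P.one_mem
  rw [← Finset.sum_filter_add_sum_filter_not S Q] at e
  have e2 : ∑ i ∈ S.filter (fun i => ¬ Q i),
      χ i 1 * ((l.map fun t => χ t.1 t.2 - χ i t.2).prod * x i) = 0 := by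
    refine Finset.sum_eq_zero fun i hi => ?_
    obtain ⟨h1, h2⟩ := Finset.mem_filter.1 hi
    obtain ⟨t, ht, rfl⟩ := hcov i h1 h2
    rw [List.prod_eq_zero (List.mem_map.2 ⟨t, ht, sub_self _⟩), zero_mul, mul_zero]
  rw [e2, add_zero] at e
  rw [Finset.mul_sum, ← e]
  refine Finset.sum_congr rfl fun i hi => ?_
  obtain ⟨h1, h2⟩ := Finset.mem_filter.1 hi
  rw [hone i h1, one_mul]
  congr 2
  exact List.map_congr_left fun t ht => by rw [h0 i h1 h2 _ (hl t ht).2]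

theorem exists_pairs {α β : Type} (R : ι → α → β → Prop) : ∀ (T : List ι) (l : List β),
    l.length = T.length → (∀ i ∈ T, ∀ y ∈ l, ∃ c, R i c y) →
    ∃ l' : List (ι × α × β), l'.map (fun t => t.1) = T ∧ l'.map (fun t => t.2.2) = l ∧
      ∀ t ∈ l', R t.1 t.2.1 t.2.2 := by
  intro T
  induction T with
  | nil => intro l h _; exact ⟨[], rfl, (List.length_eq_zero_iff.1 h).symm, by simp⟩
  | cons i T ih =>
    intro l h hR
    obtain _ | ⟨y, l⟩ := l
    · simp at h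
    obtain ⟨c, hc⟩ := hR i (by simp) y (by simp)
    obtain ⟨l', h1, h2, h3⟩ := ih l (by simpa using h)
      fun j hj y' hy' => hR j (by simp [hj]) y' (by simp [hy'])
    refine ⟨(i, c, y) :: l', by simp [h1], by simp [h2], ?_⟩
    intro t ht
    rcases List.mem_cons.1 ht with rfl | ht
    · exact hc
    · exact h3 t ht

/-- group valued characters whose images contain `X` -/
theorem dedk (ρ : N →* E) (P : Subgroup N) (S : Finset ι) (Q : ι → Prop) [DecidablePred Q]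
    (θ : ι → N → N) (x : ι → E) (X : Set N)
    (hmul : ∀ i ∈ S, ∀ a ∈ P, ∀ b ∈ P, θ i (a * b) = θ i a * θ i b)
    (hcomm : ∀ i ∈ S, ∀ j ∈ S, ∀ a ∈ P, ∀ b ∈ P, θ i a * θ j b = θ j b * θ i a)
    (h0 : ∀ i ∈ S, Q i → ∀ c ∈ P, θ i c = 1)
    (hX : ∀ i ∈ S, ¬ Q i → ∀ y ∈ X, ∃ c ∈ P, θ i c = y)
    (h : ∀ c ∈ P, ∑ i ∈ S, ρ (θ i c) * x i = 0) (l : List N)
    (hl : l.length = (S.filter fun i => ¬ Q i).card) (hlX : ∀ y ∈ l, y ∈ X) :
    (l.map fun y => ρ y - 1).prod * ∑ i ∈ S.filter Q, x i = 0 := by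
  obtain ⟨l', h1, h2, h3⟩ := exists_pairs (fun i c y => c ∈ P ∧ θ i c = y)
    (S.filter fun i => ¬ Q i).toList l (by simpa using hl) (fun i hi y hy => by
      obtain ⟨a, b⟩ := Finset.mem_filter.1 (Finset.mem_toList.1 hi)
      exact hX i a b y (hlX y hy))
  have hm : ∀ t ∈ l', t.1 ∈ S := fun t ht => by
    have : t.1 ∈ (S.filter fun i => ¬ Q i).toList := h1 ▸ List.mem_map_of_mem ht
    exact (Finset.mem_filter.1 (Finset.mem_toList.1 this)).1
  have key := ded P S Q (fun i c => ρ (θ i c)) x (fun i hi => by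
      have := hmul i hi 1 P.one_mem 1 P.one_mem
      rw [mul_one, left_eq_mul] at this
      rw [this, map_one])
    (fun i hi a ha b hb => by rw [hmul i hi a ha b hb, map_mul])
    (fun i hi j hj a ha b hb => by rw [← map_mul, hcomm i hi j hj a ha b hb, map_mul])
    (fun i hi hq c hc => by rw [h0 i hi hq c hc, map_one]) h (l'.map fun t => (t.1, t.2.1))
    (by
      simp only [List.mem_map]
      rintro _ ⟨t, ht, rfl⟩
      exact ⟨hm t ht, (h3 t ht).1⟩)
    (fun i hi hq => by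
      have : i ∈ l'.map fun t => t.1 := by
        rw [h1]; exact Finset.mem_toList.2 (Finset.mem_filter.2 ⟨hi, hq⟩)
      obtain ⟨t, ht, rfl⟩ := List.mem_map.1 this
      exact ⟨_, List.mem_map_of_mem ht, rfl⟩)
  rw [← key, ← h2, List.map_map, List.map_map]
  congr 2
  exact List.map_congr_left fun t ht => by simp [(h3 t ht).2]

end ded

section ev

variable {N : Type} [Group N] {P B : Subgroup N} {z y : N}

theorem nz_inv (h : Nz z P) : Nz z⁻¹ P := fun x hx => by simpa using (h x hx).symm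

theorem nz_zpow (h : Nz z P) (a : ℤ) {x : N} (hx : x ∈ P) : z ^ a * x * (z ^ a)⁻¹ ∈ P := by
  induction a using Int.induction_on with
  | zero => simpa using hx
  | succ n ih =>
    have := (h _ ih).1
    rw [add_comm, zpow_add, zpow_one]
    simpa [mul_assoc] using this
  | pred n ih =>
    have := (h _ ih).2
    rw [sub_eq_add_neg, add_comm, zpow_add, zpow_neg_one]
    simpa [mul_assoc] using this

theorem evz_of (y z : N) (a : ℤ) : evz y z (FreeGroup.of a) = z ^ a * y * (z ^ a)⁻¹ := by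
  simp [evz]

theorem evz_map {N' : Type} [Group N'] (f : N →* N') (y z : N) (w : FreeGroup ℤ) :
    f (evz y z w) = evz (f y) (f z) w := by
  have : f.comp (evz y z) = evz (f y) (f z) := FreeGroup.ext_hom _ _ fun a => by simp [evz]
  exact DFunLike.congr_fun this w

theorem evz_mem (hy : y ∈ P) (h : Nz z P) (w : FreeGroup ℤ) : evz y z w ∈ P := by
  induction w using FreeGroup.induction_on with
  | C1 => simp
  | of a => rw [evz_of]; exact nz_zpow h a hy
  | inv_of a ih => rw [map_inv]; exact P.inv_mem ih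
  | mul a b ha hb => rw [map_mul]; exact P.mul_mem ha hb

theorem ab_mul (v w : FreeGroup ℤ) : ab (v * w) = ab v + ab w := by simp [ab]

theorem ab_inv (w : FreeGroup ℤ) : ab w⁻¹ = - ab w := by simp [ab]

theorem ab_one : ab 1 = 0 := by simp [ab]

theorem ab_of (a : ℤ) : ab (FreeGroup.of a) = Finsupp.single a 1 := by simp [ab]

theorem ab_div (v w : FreeGroup ℤ) : ab (v * w⁻¹) = ab v - ab w := by
  rw [ab_mul, ab_inv, sub_eq_add_neg]

/-- a homomorphism to a commutative group only depends on the exponent vector -/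
theorem hom_eq_prod {Q : Type} [CommGroup Q] (φ : FreeGroup ℤ →* Q) (w : FreeGroup ℤ) :
    φ w = (ab w).prod fun a n => φ (FreeGroup.of a) ^ n := by
  induction w using FreeGroup.induction_on with
  | C1 => simp [ab_one]
  | of a => rw [ab_of, Finsupp.prod_single_index] <;> simp
  | inv_of a _ =>
    rw [ab_inv, ab_of, ← Finsupp.single_neg, Finsupp.prod_single_index] <;> simp
  | mul a b ha hb =>
    rw [map_mul, ab_mul, Finsupp.prod_add_index' (by simp) (fun _ _ _ => zpow_add _ _ _), ← ha, ← hb]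

/-- evaluation is multiplicative on an abelian group -/
theorem evz_mul (hB : Cm B B) (h : Nz z B) {a b : N} (ha : a ∈ B) (hb : b ∈ B) (w : FreeGroup ℤ) :
    evz (a * b) z w = evz a z w * evz b z w := by
  induction w using FreeGroup.induction_on with
  | C1 => simp
  | of k => simp [evz_of, mul_assoc]
  | inv_of k ih =>
    rw [map_inv, map_inv, map_inv, ih, ← mul_inv_rev,
      hB _ (evz_mem ha h _) _ (evz_mem hb h _)]
  | mul v w hv hw =>
    rw [map_mul, map_mul, map_mul, hv, hw, mul_assoc, mul_assoc, ← mul_assoc (evz b z v),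
      hB _ (evz_mem hb h v) _ (evz_mem ha h w), mul_assoc]

theorem comm_mem (hPB : ⁅P, P⁆ ≤ B) {a b : N} (ha : a ∈ P) (hb : b ∈ P) : ⁅a, b⁆ ∈ B :=
  hPB (Subgroup.commutator_mem_commutator ha hb)

theorem comm_mul_left (hB : Cm B P) (hPB : ⁅P, P⁆ ≤ B) {a b c : N} (ha : a ∈ P) (hb : b ∈ P)
    (hc : c ∈ P) : ⁅a * b, c⁆ = ⁅a, c⁆ * ⁅b, c⁆ := by
  have h1 := hB _ (comm_mem hPB hb hc) a ha
  have h2 := hB _ (comm_mem hPB hb hc) c hc
  have h3 := hB _ (comm_mem hPB hb hc) _ (P.inv_mem (P.mul_mem hc ha))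
  calc ⁅a * b, c⁆ = a * ⁅b, c⁆ * c * (c * a)⁻¹ := by simp [commutatorElement_def, mul_assoc]
    _ = a * c * (⁅b, c⁆ * (c * a)⁻¹) := by rw [mul_assoc a, h2]; simp only [mul_assoc]
    _ = ⁅a, c⁆ * ⁅b, c⁆ := by rw [h3]; simp [commutatorElement_def, mul_assoc]

theorem comm_mul_right (hB : Cm B P) (hPB : ⁅P, P⁆ ≤ B) {a b c : N} (ha : a ∈ P) (hb : b ∈ P)
    (hc : c ∈ P) : ⁅a, b * c⁆ = ⁅a, b⁆ * ⁅a, c⁆ := by
  have h1 := hB _ (comm_mem hPB ha hc) b hb
  calc ⁅a, b * c⁆ = ⁅a, b⁆ * (b * ⁅a, c⁆) * b⁻¹ := by simp [commutatorElement_def, mul_assoc]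
    _ = ⁅a, b⁆ * ⁅a, c⁆ := by rw [← h1]; simp [mul_assoc]

theorem comm_inv_left (hB : Cm B P) (hPB : ⁅P, P⁆ ≤ B) {a c : N} (ha : a ∈ P) (hc : c ∈ P) :
    ⁅a⁻¹, c⁆ = ⁅a, c⁆⁻¹ := by
  have := comm_mul_left hB hPB ha (P.inv_mem ha) hc
  rw [mul_inv_cancel, commutatorElement_one_left] at this
  exact (eq_inv_of_mul_eq_one_right this.symm)

theorem comm_inv_right (hB : Cm B P) (hPB : ⁅P, P⁆ ≤ B) {a c : N} (ha : a ∈ P) (hc : c ∈ P) :
    ⁅a, c⁻¹⁆ = ⁅a, c⁆⁻¹ := by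
  have := comm_mul_right hB hPB ha hc (P.inv_mem hc)
  rw [mul_inv_cancel, commutatorElement_one_right] at this
  exact (eq_inv_of_mul_eq_one_right this.symm)

theorem comm_pow_left (hB : Cm B P) (hPB : ⁅P, P⁆ ≤ B) {a c : N} (ha : a ∈ P) (hc : c ∈ P)
    (n : ℕ) : ⁅a ^ n, c⁆ = ⁅a, c⁆ ^ n := by
  induction n with
  | zero => simp
  | succ n ih => rw [pow_succ, comm_mul_left hB hPB (P.pow_mem ha n) ha hc, ih, pow_succ]

/-- the adjoint of the evaluation when `z` fixes the commutators -/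
theorem comm_evz (hB : Cm B P) (hPB : ⁅P, P⁆ ≤ B) (h : Nz z P) (hz : ∀ b ∈ B, z * b = b * z)
    {c : N} (hc : c ∈ P) (hy : y ∈ P) (w : FreeGroup ℤ) :
    ⁅c, evz y z w⁆ = ⁅evz c z⁻¹ w, y⁆ := by
  induction w using FreeGroup.induction_on with
  | C1 => simp
  | of a =>
    have h1 : Commute (z ^ a) ⁅evz c z⁻¹ (FreeGroup.of a), y⁆ :=
      Commute.zpow_left (hz _ (comm_mem hPB (evz_mem hc (nz_inv h) _) hy)) a
    rw [← mul_inv_cancel_right ⁅evz c z⁻¹ (FreeGroup.of a), y⁆ (z ^ a), ← h1.eq]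
    simp [evz_of, commutatorElement_def, mul_assoc]
  | inv_of a ih =>
    rw [map_inv, map_inv, comm_inv_right hB hPB hc (evz_mem hy h _),
      comm_inv_left hB hPB (evz_mem hc (nz_inv h) _) hy, ih]
  | mul v w hv hw =>
    rw [map_mul, map_mul, comm_mul_right hB hPB hc (evz_mem hy h _) (evz_mem hy h _),
      comm_mul_left hB hPB (evz_mem hc (nz_inv h) _) (evz_mem hc (nz_inv h) _) hy, hv, hw]

theorem lcs_two (hB : Cm B P) (hPB : ⁅P, P⁆ ≤ B) : P.lowerCentralSeries 2 = ⊥ := by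
  show ⁅⁅P, P⁆, P⁆ = ⊥
  rw [eq_bot_iff, Subgroup.commutator_le]
  intro a ha b hb
  rw [Subgroup.mem_bot, commutatorElement_eq_one_iff_mul_comm]
  exact hB a (hPB ha) b hb

theorem cm_of_lcs_two (h : P.lowerCentralSeries 2 = ⊥) : Cm ⁅P, P⁆ P := by
  intro a ha b hb
  have : ⁅a, b⁆ ∈ P.lowerCentralSeries 2 := Subgroup.commutator_mem_commutator ha hb
  rwa [h, Subgroup.mem_bot, commutatorElement_eq_one_iff_mul_comm] at this

variable {E : Type} [Ring E]

/-- shifting an identity by a word -/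
theorem shift (ρ : N →* E) {u₀ : FreeGroup ℤ →₀ ℤ}
    (h : (u₀.sum fun w c => c • ρ (evz y z w)) = 0) (w₀ : FreeGroup ℤ) :
    ∑ w ∈ u₀.support, u₀ w • ρ (evz y z (w * w₀⁻¹)) = 0 := by
  have := congrArg (· * ρ (evz y z w₀⁻¹)) h
  simpa only [Finsupp.sum, Finset.sum_mul, zero_mul, smul_mul_assoc, ← map_mul] using this

/-- conjugating an identity -/
theorem conj_id {ι : Type} (ρ : N →* E) (S : Finset ι) (u : ι → ℤ) (q : ι → N)
    (h : ∑ i ∈ S, u i • ρ (q i) = 0) (c : N) :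
    ∑ i ∈ S, ρ ⁅c, q i⁆ * (u i • ρ (q i)) = 0 := by
  have := congrArg (fun x => ρ c * x * ρ c⁻¹) h
  simp only [Finset.mul_sum, Finset.sum_mul, mul_zero, zero_mul, smul_mul_assoc, mul_smul_comm,
    ← map_mul] at this ⊢
  simpa [commutatorElement_def, mul_assoc] using this

/-- the trick of Dedekind in class two -/
theorem ded_two {ι : Type} (ρ : N →* E) (hBP : B ≤ P) (hB : Cm B P) (hPB : ⁅P, P⁆ ≤ B)
    (S : Finset ι) (Q : ι → Prop) [DecidablePred Q] (u : ι → ℤ) (q : ι → N)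
    (hq : ∀ i ∈ S, q i ∈ P) (h0 : ∀ i ∈ S, Q i → q i ∈ B) (h : ∑ i ∈ S, u i • ρ (q i) = 0)
    (l : List (ι × N)) (hl : ∀ t ∈ l, t.1 ∈ S ∧ t.2 ∈ P)
    (hcov : ∀ i ∈ S, ¬ Q i → ∃ t ∈ l, t.1 = i) :
    (l.map fun t => ρ ⁅t.2, q t.1⁆ - 1).prod * ∑ i ∈ S.filter Q, u i • ρ (q i) = 0 :=
  ded P S Q (fun i c => ρ ⁅c, q i⁆) _ (by simp)
    (fun i hi a ha b hb => by rw [comm_mul_left hB hPB ha hb (hq i hi), map_mul])
    (fun i hi j hj a ha b hb => by
      rw [← map_mul, ← map_mul,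
        hB _ (comm_mem hPB ha (hq i hi)) _ (hBP (comm_mem hPB hb (hq j hj)))])
    (fun i hi hQ c hc => by
      rw [commutatorElement_eq_one_iff_mul_comm.2 (hB _ (h0 i hi hQ) c hc).symm, map_one])
    (fun c _ => conj_id ρ S u q h c) l hl hcov

end ev

end Ut3A

end Pool.Agent.MP_5c28a4_al.H89S
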