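import Pool.Agent.MP_5c28a4_al.H13S.Base

/-!
If a power of every element acts unipotently, a subgroup of finite index acts unipotently.
-/

set_option autoImplicit false

namespace Pool.Agent.MP_5c28a4_al.H89S.StrA

namespace UnipA

/-- the maximum condition -/
theorem wf {G : Type} [Group G] (h : ∀ H : Subgroup G, H.FG) : WellFoundedGT (Subgroup G) := by
  refine wellFoundedGT_iff_monotone_chain_condition.2 fun a => ?_
  obtain ⟨T, hT⟩ := h (⨆ n, a n)
  have h1 : ∀ t : T, ∃ n, (t : G) ∈ a n := fun t =>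
    (Subgroup.mem_iSup_of_directed a.monotone.directed_le).1
      (hT ▸ Subgroup.subset_closure t.2)
  choose k hk using h1
  refine ⟨Finset.univ.sup k, fun m hm => le_antisymm (a.monotone hm) ?_⟩
  refine (le_iSup (fun n => a n) m).trans ?_
  rw [← hT, Subgroup.closure_le]
  exact fun t ht => a.monotone (Finset.le_sup (Finset.mem_univ (⟨t, ht⟩ : T))) (hk ⟨t, ht⟩)

theorem pw_le_closure {G : Type} [Group G] (T : Finset G) (L : ℕ)
    (h : Cm (Subgroup.closure (T : Set G)) (Subgroup.closure (T : Set G))) :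
    pw (Subgroup.closure (T : Set G)) L ≤ Subgroup.closure (⋃ i : T, {(i : G) ^ L}) := by
  refine pw_le_of fun x hx => ?_
  induction hx using Subgroup.closure_induction with
  | mem x hx => exact Subgroup.subset_closure (Set.mem_iUnion.2 ⟨⟨x, hx⟩, rfl⟩)
  | one => simp
  | mul x y hx hy ix iy =>
    rw [Commute.mul_pow (h x hx y hy)]
    exact Subgroup.mul_mem _ ix iy
  | inv x _ ix =>
    rw [inv_pow]
    exact Subgroup.inv_mem _ ix

theorem step (hB : BVn) (hR : XRed) (hS : XSum) {N A : Type} [Group N] [AddCommGroup A]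
    {ρ : Representation ℤ N A} {X : Subgroup N} {m : ℤ} {L e : ℕ} (hN : Group.FG N)
    (hX : CoVN X) (hT : Tame (nonZeroDivisors ℤ) ρ X) (hm : m ≠ 0) (hL : 0 < L)
    (hz : ∀ z : N, Kill ρ m {z ^ L} e) (hi : ¬ X.FiniteIndex) :
    ∃ X' : Subgroup N, X'.Normal ∧ X ≤ X' ∧ ¬ X' ≤ X ∧ Tame (nonZeroDivisors ℤ) ρ X' := by
  have := hX.1
  have hinf : Infinite (N ⧸ X) := by
    rw [← not_finite_iff_infinite]
    exact fun _ => hi Subgroup.finiteIndex_of_finite_quotient
  have hfg : Group.FG (N ⧸ X) := Group.fg_of_surjective (QuotientGroup.mk'_surjective X)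
  have hvn := (hB.quot N X).1 hX
  obtain ⟨Z, hZ, hZ0, hc, htf, -⟩ := hB.cen _ hfg hvn hinf
  obtain ⟨T, rfl⟩ := hB.fg _ hfg hvn Z
  obtain ⟨a, ha, t, ht⟩ := hT
  obtain ⟨A', _, ρ', -, h2, h3⟩ := hR N A ρ X a t ht
  obtain ⟨b, hb, n, hn⟩ := hS.sum (nonZeroDivisors ℤ) _ _ ρ' _ T (fun i => {(i : N ⧸ X) ^ L}) hc
    (fun i => Set.singleton_subset_iff.2 (Subgroup.pow_mem _ (Subgroup.subset_closure i.2) L))
    (fun i => by
      obtain ⟨z, hz'⟩ := QuotientGroup.mk'_surjective X i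
      have := h2 m _ e (hz z)
      rw [Set.image_singleton, map_pow, hz'] at this
      exact ⟨m, mem_nonZeroDivisors_of_ne_zero hm, e, this⟩)
  have := pw_normal hZ L
  refine ⟨(pw (Subgroup.closure (T : Set (N ⧸ X))) L).comap (QuotientGroup.mk' X), inferInstance,
    fun x hx => ?_, fun hle => ?_, a * b ^ t, mul_mem ha (pow_mem hb t), n * t,
    h3 b _ n (kill_mono hn ?_)⟩
  · rw [Subgroup.mem_comap, QuotientGroup.mk'_apply, (QuotientGroup.eq_one_iff x).2 hx]
    exact Subgroup.one_mem _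
  · refine hZ0 (eq_bot_iff.2 fun z hz' => Subgroup.mem_bot.2 (htf z hz' ?_))
    obtain ⟨y, rfl⟩ := QuotientGroup.mk'_surjective X z
    refine isOfFinOrder_iff_pow_eq_one.2 ⟨L, hL, ?_⟩
    rw [← map_pow, QuotientGroup.mk'_apply, QuotientGroup.eq_one_iff]
    refine hle ?_
    rw [Subgroup.mem_comap, map_pow]
    exact pow_mem_pw hz' L
  · rintro _ ⟨x, hx, rfl⟩
    exact pw_le_closure T L hc hx

end UnipA

theorem unip (hB : BVn) (hR : XRed) (hS : XSum) : XUnip := by
  intro N A _ _ ρ K m L e hN hK hT hm hL hz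
  have := hK.1
  have hfg : Group.FG (N ⧸ K) := Group.fg_of_surjective (QuotientGroup.mk'_surjective K)
  have := UnipA.wf (hB.fg _ hfg ((hB.quot N K).1 hK))
  have hbot : (⊥ : Subgroup (N ⧸ K)).comap (QuotientGroup.mk' K) = K := by
    rw [MonoidHom.comap_bot, QuotientGroup.ker_mk']
  obtain ⟨Y, ⟨hY, hYT⟩, hmax⟩ := wellFounded_gt.has_min
    {Y : Subgroup (N ⧸ K) | Y.Normal ∧ Tame (nonZeroDivisors ℤ) ρ (Y.comap (QuotientGroup.mk' K))}
    ⟨⊥, inferInstance, by rw [hbot]; exact hT⟩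
  have hKX : K ≤ Y.comap (QuotientGroup.mk' K) := hbot.symm.le.trans (Subgroup.comap_mono bot_le)
  refine ⟨Y.comap (QuotientGroup.mk' K), inferInstance, ?_, hYT⟩
  by_contra hi
  obtain ⟨X', h1, h2, h3, h4⟩ := UnipA.step hB hR hS hN (hB.mono N K _ hK hKX inferInstance) hYT hm
    hL hz hi
  have h5 : (X'.map (QuotientGroup.mk' K)).comap (QuotientGroup.mk' K) = X' :=
    Subgroup.comap_map_eq_self (by rw [QuotientGroup.ker_mk']; exact hKX.trans h2)
  refine hmax (X'.map (QuotientGroup.mk' K))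
    ⟨h1.map _ (QuotientGroup.mk'_surjective K), by rw [h5]; exact h4⟩ (lt_of_le_not_ge ?_ ?_)
  · rw [← Subgroup.map_comap_eq_self_of_surjective (QuotientGroup.mk'_surjective K) Y]
    exact Subgroup.map_mono h2
  · exact fun h => h3 (Subgroup.map_le_iff_le_comap.1 h)

end Pool.Agent.MP_5c28a4_al.H89S.StrA
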