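import Pool.Agent.MP_5c28a4_al.H81S.Ded

/-!
Consequences of the identity in one variable for elementary abelian subgroups and for subgroups of
class two.
-/

set_option autoImplicit false

namespace Pool.Agent.MP_5c28a4_al.H89S

open scoped commutatorElement

namespace Ut3A

section div

open Polynomial

theorem poly_dvd (p : ℕ) [Fact p.Prime] (H : (ZMod p)[X]) (hH : H ≠ 0) :
    ∃ i L : ℕ, 0 < L ∧ H ∣ X ^ (L + i) - X ^ i := by
  have : Module.Finite (ZMod p) (AdjoinRoot H) := (AdjoinRoot.powerBasis hH).finite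
  have : Finite (AdjoinRoot H) := Module.finite_of_finite (ZMod p)
  obtain ⟨i, j, hij, h⟩ := Finite.exists_ne_map_eq_of_infinite fun n : ℕ => AdjoinRoot.root H ^ n
  wlog hlt : i < j generalizing i j
  · exact this j i hij.symm h.symm (by omega)
  refine ⟨i, j - i, by omega, ?_⟩
  rw [← AdjoinRoot.mk_eq_zero, Nat.sub_add_cancel hlt.le, map_sub, map_pow, map_pow,
    AdjoinRoot.mk_X]
  exact sub_eq_zero.2 h.symm

/-- `h` divides `T ^ L - 1` modulo `p` -/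
def Solv (p : ℕ) (h : ℤ →₀ ℤ) (L : ℕ) : Prop := ∀ (R : Type) [Ring R] (t : ℤ → R), t 0 = 1 →
  (∀ a b, t (a + b) = t a * t b) → (p : R) = 0 →
  ∃ g : R, t L - 1 = (∑ a ∈ h.support, h a • t a) * g

theorem t_pow {R : Type} [Ring R] {t : ℤ → R} (h0 : t 0 = 1) (h1 : ∀ a b, t (a + b) = t a * t b)
    (a : ℤ) (n : ℕ) : t (a * n) = t a ^ n := by
  induction n with
  | zero => simpa using h0
  | succ n ih => rw [pow_succ, ← ih, ← h1]; congr 1; push_cast; ring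

theorem Solv.of_dvd {p : ℕ} {h : ℤ →₀ ℤ} {L L' : ℕ} (hs : Solv p h L) (hL : L ∣ L') :
    Solv p h L' := by
  obtain ⟨k, rfl⟩ := hL
  intro R _ t h0 h1 hp
  obtain ⟨g, hg⟩ := hs R t h0 h1 hp
  refine ⟨g * ∑ i ∈ Finset.range k, t L ^ i, ?_⟩
  rw [← mul_assoc, ← hg, mul_geom_sum, Nat.cast_mul, t_pow h0 h1]

theorem exists_solv (p : ℕ) (hp : p.Prime) (h : ℤ →₀ ℤ) (hh : ¬ ∀ a, (p : ℤ) ∣ h a) :
    ∃ L, 0 < L ∧ Solv p h L := by
  classical
  have := Fact.mk hp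
  obtain ⟨a₀, ha₀⟩ := not_forall.1 hh
  obtain ⟨M, hM⟩ : ∃ M : ℤ, ∀ a ∈ h.support, 0 ≤ a + M := by
    obtain ⟨b, hb⟩ := h.support.finite_toSet.bddBelow
    exact ⟨-b, fun a ha => by have := hb ha; omega⟩
  have hs₀ : a₀ ∈ h.support := Finsupp.mem_support_iff.2 fun h0 => ha₀ (by simp [h0])
  let H : (ZMod p)[X] := ∑ a ∈ h.support, monomial (a + M).toNat (h a : ZMod p)
  have hH : H ≠ 0 := by
    intro h0
    have h1 : H.coeff (a₀ + M).toNat = (h a₀ : ZMod p) := by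
      simp only [H, finsetSum_coeff, coeff_monomial]
      rw [Finset.sum_eq_single a₀ _ (fun h2 => absurd hs₀ h2), if_pos rfl]
      intro b hb hne
      have := hM b hb
      have := hM a₀ hs₀
      rw [if_neg (by omega)]
    rw [h0, coeff_zero] at h1
    exact ha₀ ((ZMod.intCast_zmod_eq_zero_iff_dvd _ _).1 h1.symm)
  obtain ⟨i, L, hL, G, hG⟩ := poly_dvd p H hH
  refine ⟨L, hL, fun R _ t h0 h1 hp0 => ?_⟩
  let _ : Algebra (ZMod p) R := ZMod.algebra' R (ringChar R) (ringChar.dvd hp0)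
  have ht : ∀ n : ℕ, t 1 ^ n = t n := fun n => by rw [← t_pow h0 h1, one_mul]
  have h2 : aeval (t 1) H = (∑ a ∈ h.support, h a • t a) * t M := by
    simp only [H, map_sum, aeval_monomial, map_intCast, Finset.sum_mul]
    refine Finset.sum_congr rfl fun a ha => ?_
    rw [ht, Int.toNat_of_nonneg (hM a ha), h1, zsmul_eq_mul, mul_assoc]
  have h3 := congrArg (aeval (t 1)) hG
  rw [map_sub, map_pow, map_pow, aeval_X, map_mul, h2, ht, ht, Nat.cast_add, h1] at h3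
  refine ⟨t M * aeval (t 1) G * t (-i), ?_⟩
  rw [← mul_assoc, ← mul_assoc, ← h3, sub_mul, mul_assoc, ← h1, add_neg_cancel, h0, mul_one]

theorem exists_solv_fin {ι : Type} (p : ℕ) (hp : p.Prime) (S : Finset ι) (h : ι → ℤ →₀ ℤ) :
    ∃ L, 0 < L ∧ ∀ i ∈ S, (¬ ∀ a, (p : ℤ) ∣ h i a) → Solv p (h i) L := by
  have : ∀ i, ∃ L, 0 < L ∧ ((¬ ∀ a, (p : ℤ) ∣ h i a) → Solv p (h i) L) := fun i => by
    by_cases hi : ∀ a, (p : ℤ) ∣ h i a
    · exact ⟨1, one_pos, fun h' => absurd hi h'⟩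
    · obtain ⟨L, h1, h2⟩ := exists_solv p hp (h i) hi
      exact ⟨L, h1, fun _ => h2⟩
  choose L h1 h2 using this
  exact ⟨∏ i ∈ S, L i, Finset.prod_pos fun i _ => h1 i,
    fun i hi h' => (h2 i h').of_dvd (Finset.dvd_prod_of_mem L hi)⟩

/-- a combination of roots of unity divides an integer prime to `p` -/
theorem norm_comm {ι : Type} [Fintype ι] (p : ℕ) (hp : p.Prime) (u : ι → ℤ)
    (hu : ¬ (p : ℤ) ∣ ∑ i, u i) : ∃ m : ℤ, ¬ (p : ℤ) ∣ m ∧ ∀ (E : Type) [CommRing E] (ξ : ι → E),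
      (∀ i, ξ i ^ p = 1) → ∃ s : E, (∑ i, u i • ξ i) * s = m := by
  let I : Ideal (MvPolynomial ι ℤ) := Ideal.span (Set.range fun i => MvPolynomial.X i ^ p - 1)
  let x : ι → MvPolynomial ι ℤ ⧸ I := fun i => Ideal.Quotient.mk I (MvPolynomial.X i)
  have hx : ∀ i, x i ^ p = 1 := fun i => by
    rw [← sub_eq_zero, ← map_pow, ← map_one (Ideal.Quotient.mk I), ← map_sub,
      Ideal.Quotient.eq_zero_iff_mem]
    exact Ideal.subset_span ⟨i, rfl⟩
  have hint : Algebra.IsIntegral ℤ (MvPolynomial ι ℤ ⧸ I) := ⟨fun r => by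
    obtain ⟨f, rfl⟩ := Ideal.Quotient.mk_surjective r
    induction f using MvPolynomial.induction_on with
    | C a => exact isIntegral_algebraMap (x := a)
    | add f g hf hg => rw [map_add]; exact hf.add hg
    | mul_X f i hf =>
      rw [map_mul]
      exact hf.mul (IsIntegral.of_pow hp.pos (by rw [hx i]; exact isIntegral_one))⟩
  have hP : (Ideal.span {(p : ℤ)}).IsPrime :=
    (Ideal.span_singleton_prime (by exact_mod_cast hp.ne_zero)).2 (Nat.prime_iff_prime_int.1 hp)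
  have key : ¬ (Ideal.span {∑ i, u i • x i}).comap (algebraMap ℤ _) ≤ Ideal.span {(p : ℤ)} := by
    intro hle
    obtain ⟨Q, h1, h2, h3⟩ := Ideal.exists_ideal_over_prime_of_isIntegral _ _ hle
    have hpQ : (p : MvPolynomial ι ℤ ⧸ I) ∈ Q := by
      have : (p : ℤ) ∈ Q.comap (algebraMap ℤ _) := h3 ▸ Ideal.mem_span_singleton_self _
      simpa using this
    have h4 : ∀ i, x i - 1 ∈ Q := fun i => by
      obtain ⟨r, hr⟩ := exists_add_pow_prime_eq hp (x i - 1) 1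
      rw [sub_add_cancel, hx, one_pow] at hr
      refine h2.mem_of_pow_mem p ?_
      rw [show (x i - 1) ^ p = p * (-((x i - 1) * r)) by linear_combination -hr]
      exact Q.mul_mem_right _ hpQ
    have h5 : ∑ i, u i • x i - ∑ i, u i • (x i - 1) ∈ Q :=
      Q.sub_mem (h1 (Ideal.mem_span_singleton_self _))
        (Q.sum_mem fun i _ => by rw [zsmul_eq_mul]; exact Q.mul_mem_left _ (h4 i))
    apply hu
    rw [← Ideal.mem_span_singleton, ← h3, Ideal.mem_comap]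
    convert h5 using 1
    rw [← Finset.sum_sub_distrib]
    simp [← mul_sub]
  obtain ⟨m, h1, h2⟩ := Set.not_subset.1 key
  refine ⟨m, fun h => h2 (Ideal.mem_span_singleton.2 h), fun E _ ξ hξ => ?_⟩
  obtain ⟨s, hs⟩ := Ideal.mem_span_singleton.1 (Ideal.mem_comap.1 h1)
  let φ : MvPolynomial ι ℤ ⧸ I →+* E := Ideal.Quotient.lift I (MvPolynomial.aeval ξ).toRingHom (by
    intro a ha
    have : I ≤ RingHom.ker (MvPolynomial.aeval (R := ℤ) ξ).toRingHom := Ideal.span_le.2 (by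
      rintro _ ⟨i, rfl⟩
      simp [hξ i])
    exact this ha)
  have hφ : ∀ i, φ (x i) = ξ i := fun i => by simp [φ, x]
  refine ⟨φ s, ?_⟩
  have := congrArg φ hs
  simp only [map_mul, map_sum, map_zsmul, hφ, eq_intCast, map_intCast] at this
  exact this.symm

open scoped IsMulCommutative in
theorem norm_ex {ι : Type} (p : ℕ) (hp : p.Prime) (S : Finset ι) (u : ι → ℤ)
    (hu : ¬ (p : ℤ) ∣ ∑ i ∈ S, u i) : ∃ m : ℤ, ¬ (p : ℤ) ∣ m ∧ ∀ (E : Type) [Ring E] (ξ : ι → E),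
      (∀ i ∈ S, ξ i ^ p = 1) → (∀ i ∈ S, ∀ j ∈ S, ξ i * ξ j = ξ j * ξ i) →
      ∃ s : E, (∑ i ∈ S, u i • ξ i) * s = m := by
  obtain ⟨m, h1, h2⟩ := norm_comm (ι := S) p hp (fun i => u i) (by rwa [Finset.sum_coe_sort])
  refine ⟨m, h1, fun E _ ξ h3 h4 => ?_⟩
  have := Algebra.isMulCommutative_adjoin ℤ (s := Set.range fun i : S => ξ i) (by
    rintro _ ⟨i, rfl⟩ _ ⟨j, rfl⟩
    exact h4 i i.2 j j.2)
  obtain ⟨s, hs⟩ := h2 (Algebra.adjoin ℤ (Set.range fun i : S => ξ i))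
    (fun i => ⟨ξ i, Algebra.subset_adjoin ⟨i, rfl⟩⟩) (fun i => Subtype.ext (h3 i i.2))
  refine ⟨s, ?_⟩
  have := congrArg Subtype.val hs
  rw [← Finset.sum_coe_sort]
  simpa using this

end div

section quot

variable {N : Type} [Group N] {P B : Subgroup N} {z : N}

theorem exists_quot (hPB : ⁅P, P⁆ ≤ B) : ∃ (Q : Type) (_ : CommGroup Q) (π : P →* Q),
    Function.Surjective π ∧ ∀ x, π x = 1 ↔ (x : N) ∈ B := by
  have hn : (B.subgroupOf P).Normal := ⟨fun x hx g => by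
    have := B.mul_mem (comm_mem hPB g.2 x.2) hx
    simpa [Subgroup.mem_subgroupOf, commutatorElement_def] using this⟩
  refine ⟨P ⧸ B.subgroupOf P, { (inferInstance : Group (P ⧸ B.subgroupOf P)) with
    mul_comm := fun a b => ?_ }, QuotientGroup.mk' _, QuotientGroup.mk'_surjective _, fun x => ?_⟩
  · obtain ⟨a, rfl⟩ := QuotientGroup.mk_surjective a
    obtain ⟨b, rfl⟩ := QuotientGroup.mk_surjective b
    rw [← QuotientGroup.mk_mul, ← QuotientGroup.mk_mul, QuotientGroup.eq]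
    have := comm_mem hPB (P.inv_mem b.2) (P.inv_mem a.2)
    simpa [Subgroup.mem_subgroupOf, commutatorElement_def, mul_assoc] using this
  · exact QuotientGroup.eq_one_iff x

/-- conjugation by a power of `z` -/
def cj (h : Nz z P) (a : ℤ) : P →* P where
  toFun x := ⟨z ^ a * x * (z ^ a)⁻¹, nz_zpow h a x.2⟩
  map_one' := Subtype.ext (by simp)
  map_mul' x y := Subtype.ext (by simp [mul_assoc])

/-- evaluation inside `P` -/
def evP (h : Nz z P) (c : P) : FreeGroup ℤ →* P := FreeGroup.lift fun a => cj h a c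

theorem coe_evP (h : Nz z P) (c : P) (w : FreeGroup ℤ) : (evP h c w : N) = evz (c : N) z w := by
  have : P.subtype.comp (evP h c) = evz (c : N) z :=
    FreeGroup.ext_hom _ _ fun a => by simp [evP, evz, cj]
  exact DFunLike.congr_fun this w

theorem pi_evP {Q : Type} [CommGroup Q] (π : P →* Q) (h : Nz z P) (c : P) (w : FreeGroup ℤ) :
    π (evP h c w) = ∏ a ∈ (ab w).support, π (cj h a c) ^ ab w a := by
  have := hom_eq_prod (π.comp (evP h c)) w
  simpa [evP, Finsupp.prod] using this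

theorem evz_mem_of_dvd {p : ℕ} (hPB : ⁅P, P⁆ ≤ B) (hp : ∀ x ∈ P, x ^ p ∈ B) (h : Nz z P) {c : N}
    (hc : c ∈ P) {w : FreeGroup ℤ} (hw : ∀ a, (p : ℤ) ∣ ab w a) : evz c z w ∈ B := by
  obtain ⟨Q, _, π, -, h2⟩ := exists_quot hPB
  have := coe_evP h ⟨c, hc⟩ w
  rw [← this, ← h2, pi_evP]
  refine Finset.prod_eq_one fun a _ => ?_
  obtain ⟨e, he⟩ := hw a
  rw [he, zpow_mul, zpow_natCast, ← map_pow, (h2 _).2 (hp _ (cj h a _).2), one_zpow]

theorem evz_mem_comm {p : ℕ} (hp : 0 < p) (h : Nz z P) {c : N} (hc : c ∈ P)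
    (hz : z * c ^ p = c ^ p * z) {w : FreeGroup ℤ} (hw : ∀ a, (p : ℤ) ∣ ab w a)
    (hs : ((ab w).sum fun _ n => n) = 0) : evz c z w ∈ ⁅P, P⁆ := by
  obtain ⟨Q, _, π, -, h2⟩ := exists_quot (le_refl ⁅P, P⁆)
  have := coe_evP h ⟨c, hc⟩ w
  rw [← this, ← h2, pi_evP]
  choose e he using hw
  have h3 : ∀ a, π (cj h a ⟨c, hc⟩) ^ ab w a = π (⟨c, hc⟩ ^ p) ^ e a := fun a => by
    rw [he, zpow_mul, zpow_natCast, ← map_pow, ← map_pow]
    congr 2
    apply Subtype.ext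
    have h4 : Commute (z ^ a) (c ^ p) := Commute.zpow_left hz a
    simp [cj, h4.eq]
  have h5 : ∑ a ∈ (ab w).support, e a = 0 := by
    simp only [Finsupp.sum, he, ← Finset.mul_sum] at hs
    exact (mul_eq_zero.1 hs).resolve_left (by exact_mod_cast hp.ne')
  have h6 : ∀ (q : Q) (S : Finset ℤ), ∏ a ∈ S, q ^ e a = q ^ ∑ a ∈ S, e a := fun q S => by
    induction S using Finset.induction_on with
    | empty => simp
    | insert a S ha ih => rw [Finset.prod_insert ha, Finset.sum_insert ha, ih, zpow_add]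
  rw [Finset.prod_congr rfl fun a _ => h3 a, h6, h5, zpow_zero]

theorem solve {p L : ℕ} {w : FreeGroup ℤ} (hS : Solv p (ab w) L) (hPB : ⁅P, P⁆ ≤ B)
    (hp : ∀ x ∈ P, x ^ p ∈ B) (h : Nz z P) (h' : Nz z B) {b : N} (hb : b ∈ P) :
    ∃ c ∈ P, (evz c z w)⁻¹ * ⁅z ^ L, b⁆ ∈ B := by
  obtain ⟨Q, _, π, h1, h2⟩ := exists_quot hPB
  have hk : ∀ a, π.ker ≤ (π.comp (cj h a)).ker := fun a x hx =>
    (h2 _).2 (nz_zpow h' a ((h2 x).1 hx))
  let t : ℤ → Module.End ℤ (Additive Q) := fun a =>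
    (MonoidHom.toAdditive (π.liftOfSurjective h1 ⟨_, hk a⟩)).toIntLinearMap
  have ht : ∀ a x, t a (Additive.ofMul (π x)) = Additive.ofMul (π (cj h a x)) := fun a x =>
    congrArg Additive.ofMul (π.liftOfRightInverse_comp_apply _
      (Function.rightInverse_surjInv h1) ⟨_, hk a⟩ x)
  have hext : ∀ f g : Module.End ℤ (Additive Q),
      (∀ x, f (Additive.ofMul (π x)) = g (Additive.ofMul (π x))) → f = g := fun f g hfg =>
    LinearMap.ext fun q => by
      obtain ⟨x, hx⟩ := h1 q.toMul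
      have := hfg x
      rwa [hx, ofMul_toMul] at this
  obtain ⟨g, hg⟩ := hS _ t
    (hext _ _ fun x => by
      rw [ht, show cj h 0 x = x from Subtype.ext (by simp [cj])]; rfl)
    (fun a a' => hext _ _ fun x => by
      rw [Module.End.mul_apply, ht, ht, ht]; congr 2
      exact Subtype.ext (by simp [cj, zpow_add, mul_assoc]))
    (hext _ _ fun x => by
      rw [Module.End.natCast_apply, ← ofMul_pow, ← map_pow, (h2 _).2 (hp _ x.2)]; rfl)
  obtain ⟨c, hc⟩ := h1 (g (Additive.ofMul (π ⟨b, hb⟩))).toMul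
  have h3 := LinearMap.congr_fun hg (Additive.ofMul (π ⟨b, hb⟩))
  rw [Module.End.mul_apply, ← ofMul_toMul (g _), ← hc, LinearMap.sum_apply, LinearMap.sub_apply,
    ht] at h3
  simp only [LinearMap.smul_apply, ht, ← ofMul_zpow, ← ofMul_prod, ← pi_evP,
    Module.End.one_apply, ← ofMul_div] at h3
  have h4 := Additive.ofMul.injective h3
  refine ⟨c, c.2, ?_⟩
  have h5 := (h2 ((evP h c w)⁻¹ * (cj h L ⟨b, hb⟩ / ⟨b, hb⟩))).1
    (by rw [map_mul, map_inv, map_div, h4, inv_mul_cancel])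
  simpa [coe_evP, cj, commutatorElement_def, div_eq_mul_inv] using h5

theorem pow_comm_eq_one {p : ℕ} (hBP : B ≤ P) (hB : Cm B P) (hPB : ⁅P, P⁆ ≤ B)
    (hp : ∀ x ∈ P, x ^ p ∈ B) {x : N} (hx : x ∈ ⁅P, P⁆) : x ^ p = 1 := by
  let K : Subgroup N :=
    { carrier := {x | x ∈ B ∧ x ^ p = 1}
      one_mem' := ⟨B.one_mem, one_pow p⟩
      mul_mem' := fun {a b} ha hb => ⟨B.mul_mem ha.1 hb.1, by
        rw [Commute.mul_pow (hB a ha.1 b (hBP hb.1)), ha.2, hb.2, one_mul]⟩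
      inv_mem' := fun {a} ha => ⟨B.inv_mem ha.1, by rw [inv_pow, ha.2, inv_one]⟩ }
  have : ⁅P, P⁆ ≤ K := Subgroup.commutator_le.2 fun a ha b hb => ⟨comm_mem hPB ha hb, by
    rw [← comm_pow_left hB hPB ha hb, commutatorElement_eq_one_iff_mul_comm]
    exact hB _ (hp a ha) b hb⟩
  exact (this hx).2

end quot

end Ut3A

open Ut3A in
theorem su (hI : SID0) : SU := by
  classical
  intro p u hp hu
  obtain ⟨u₀, w₀, -, h2, h3⟩ := hI p u hp hu
  obtain ⟨L, hL, hS⟩ := exists_solv_fin p hp u₀.support fun w => ab (w * w₀⁻¹)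
  refine ⟨_, (u₀.support.filter fun w => ¬ ∀ a, (p : ℤ) ∣ ab w a - ab w₀ a).card, L, h2, hL, ?_⟩
  intro N A _ _ ρ hρ B z hB hBp hz l hl hlX
  have hbot : ⁅B, B⁆ ≤ ⊥ := Subgroup.commutator_le.2 fun a ha b hb =>
    Subgroup.mem_bot.2 (commutatorElement_eq_one_iff_mul_comm.2 (hB a ha b hb))
  have hp' : ∀ x ∈ B, x ^ p ∈ (⊥ : Subgroup N) := fun x hx => Subgroup.mem_bot.2 (hBp x hx)
  have key := dedk ρ B u₀.support (fun w => ∀ a, (p : ℤ) ∣ ab w a - ab w₀ a)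
    (fun w c => evz c z (w * w₀⁻¹)) (fun w => u₀ w • 1) {x | ∃ b ∈ B, x = ⁅z ^ L, b⁆}
    (fun w _ a ha b hb => evz_mul hB hz ha hb _)
    (fun v _ w _ a ha b hb => hB _ (evz_mem ha hz _) _ (evz_mem hb hz _))
    (fun w _ hw c hc => Subgroup.mem_bot.1
      (evz_mem_of_dvd hbot hp' hz hc (by simpa [ab_div] using hw)))
    (by
      rintro w hw hQ _ ⟨b, hb, rfl⟩
      obtain ⟨c, hc, h4⟩ := solve (hS w hw (by simpa [ab_div] using hQ)) hbot hp' hz
        (fun x hx => by simp [Subgroup.mem_bot.1 hx]) hb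
      exact ⟨c, hc, inv_mul_eq_one.1 (Subgroup.mem_bot.1 h4)⟩)
    (fun c hc => by
      have := shift ρ (h3 N A ρ hρ B c z
        (lcs_two (B := B) hB (hbot.trans bot_le)) hc hz) w₀
      simpa only [mul_smul_comm, mul_one] using this) l hl hlX
  rw [← Finset.sum_smul, mul_smul_comm, mul_one] at key
  exact key

open Ut3A in
theorem st3 (hI : SID0) : ST3 := by
  classical
  intro p u hp hu
  obtain ⟨u₀, w₁, h1, h2, h3⟩ := hI p u hp hu
  obtain ⟨w₀, hw₀⟩ : (u₀.support.filter fun w => ∀ a, (p : ℤ) ∣ ab w a - ab w₁ a).Nonempty := by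
    rw [Finset.nonempty_iff_ne_empty]
    intro h
    rw [h] at h2
    simp at h2
  obtain ⟨hs₀, hc₀⟩ := Finset.mem_filter.1 hw₀
  have hQ : ∀ w, (∀ a, (p : ℤ) ∣ ab w a - ab w₁ a) ↔ ∀ a, (p : ℤ) ∣ ab (w * w₀⁻¹) a := fun w => by
    refine forall_congr' fun a => ?_
    rw [ab_div, Finsupp.sub_apply,
      show ab w a - ab w₀ a = ab w a - ab w₁ a - (ab w₀ a - ab w₁ a) by ring]
    exact (dvd_sub_left (hc₀ a)).symm
  obtain ⟨L, hL, hS⟩ := exists_solv_fin p hp u₀.support fun w => ab (w * w₀⁻¹)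
  obtain ⟨m, hm, hN⟩ := norm_ex p hp _ u₀ h2
  refine ⟨m, (u₀.support.filter fun w => ¬ ∀ a, (p : ℤ) ∣ ab w a - ab w₁ a).card, L, hm, hL, ?_⟩
  intro N A _ _ ρ hρ P B z hBP hB hPB hPp hz hzB y hy l hl hlX
  have hq : ∀ w, evz y z w ∈ P := evz_mem hy hz
  have hq0 : ∀ w ∈ u₀.support.filter fun w => ∀ a, (p : ℤ) ∣ ab w a - ab w₁ a,
      evz y z (w * w₀⁻¹) ∈ ⁅P, P⁆ := fun w hw => by
    obtain ⟨a, b⟩ := Finset.mem_filter.1 hw
    refine evz_mem_comm hp.pos hz hy (hzB _ (hPp y hy)) ((hQ w).1 b) ?_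
    rw [ab_div, Finsupp.sum_sub_index (fun _ _ _ => rfl), h1 w a, h1 w₀ hs₀, sub_zero]
  have key := dedk ρ P u₀.support (fun w => ∀ a, (p : ℤ) ∣ ab w a - ab w₁ a)
    (fun w c => ⁅c, evz y z (w * w₀⁻¹)⁆) (fun w => u₀ w • ρ (evz y z (w * w₀⁻¹)))
    {x | ∃ c ∈ P, x = ⁅y, ⁅z ^ L, c⁆⁆}
    (fun w _ a ha b hb => comm_mul_left hB hPB ha hb (hq _))
    (fun v _ w _ a ha b hb => hB _ (comm_mem hPB ha (hq _)) _ (hBP (comm_mem hPB hb (hq _))))
    (fun w hw hw' c hc => commutatorElement_eq_one_iff_mul_comm.2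
      (hB _ (hPB (hq0 w (Finset.mem_filter.2 ⟨hw, hw'⟩))) c hc).symm)
    (by
      rintro w hw hw' _ ⟨c, hc, rfl⟩
      have hc' : z ^ L * c * (z ^ L)⁻¹ ∈ P := by simpa using nz_zpow hz L hc
      obtain ⟨c', h4, h5⟩ := solve (z := z⁻¹) (hS w hw (by rwa [← hQ])) hPB hPp (nz_inv hz)
        (nz_inv fun x hx => ⟨by rwa [hzB x hx, mul_inv_cancel_right],
          by rwa [mul_assoc, ← hzB x hx, inv_mul_cancel_left]⟩) hc'
      have h6 : ⁅z⁻¹ ^ L, z ^ L * c * (z ^ L)⁻¹⁆ = ⁅z ^ L, c⁆⁻¹ := by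
        simp [commutatorElement_def, mul_assoc]
      have h7 : ⁅z ^ L, c⁆ ∈ P := P.mul_mem hc' (P.inv_mem hc)
      have h8 := evz_mem h4 (nz_inv hz) (w * w₀⁻¹)
      refine ⟨c', h4, ?_⟩
      have h9 := commutatorElement_eq_one_iff_mul_comm.2 (hB _ h5 y hy)
      rw [h6, comm_mul_left hB hPB (P.inv_mem h8) (P.inv_mem h7) hy, comm_inv_left hB hPB h8 hy,
        comm_inv_left hB hPB h7 hy, commutatorElement_inv ⁅z ^ L, c⁆, inv_mul_eq_one] at h9
      rw [comm_evz hB hPB hz hzB h4 hy, h9])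
    (fun c _ => conj_id ρ _ u₀ _ (shift ρ (h3 N A ρ hρ P y z (lcs_two hB hPB) hy hz) w₀) c)
    l hl hlX
  obtain ⟨s, hs⟩ := hN _ (fun w => ρ (evz y z (w * w₀⁻¹)))
    (fun w hw => by rw [← map_pow, pow_comm_eq_one hBP hB hPB hPp (hq0 w hw), map_one])
    (fun v hv w _ => by rw [← map_mul ρ, ← map_mul ρ, hB _ (hPB (hq0 v hv)) _ (hq _)])
  have := congrArg (· * s) key
  simp only [mul_assoc, hs, zero_mul] at this
  rw [zsmul_eq_mul, Int.cast_comm]
  exact this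

end Pool.Agent.MP_5c28a4_al.H89S
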